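import Pool.Agent.H9.K2.Stmts2
import Pool.Agent.H20.KA.TRC
import Pool.Agent.H44.KA.GRO
import Pool.Agent.H13.KAL.KP1

/-!
# One value of the side information
-/

set_option autoImplicit false

namespace Pool.KA

open Finset Real
open Pool.Agent.H49.Ent Pool.Agent.H32.Dense Pool.STK

namespace MZV

variable {Ω S T ζ : Type} [Fintype Ω] {p : Ω → ℝ}

/-- Conditional entropy given the side information and one more variable, as an average. -/
theorem CH_avg [DecidableEq ζ] (hp : ∀ ω, 0 ≤ p ω) (X : Ω → S) (Y : Ω → T) (Z : Ω → ζ) :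
    CH p X (fun ω => (Y ω, Z ω)) =
      ∑ z ∈ univ.image Z, law p Z z * CH (cond p Z z) X (fun ω => (Y ω, Z ω)) := by
  classical
  have h1 := CH_chain hp X Y Z
  have h2 : CH p X (fun ω => (Y ω, Z ω)) = CH p (fun ω => (X ω, Y ω)) Z - CH p Y Z := by
    linarith
  rw [h2, CH_eq_sum hp, CH_eq_sum hp, ← Finset.sum_sub_distrib]
  refine Finset.sum_congr rfl fun z _ => ?_
  rw [← mul_sub]
  congr 1
  have hr := cond_nonneg hp Z z
  have e1 : H (cond p Z z) (fun ω => (X ω, Y ω)) - H (cond p Z z) Y = CH (cond p Z z) X Y := rfl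
  rw [e1]
  refine CH_congr hr (fun _ _ _ _ h => (Prod.ext_iff.mp h).1)
    (fun _ _ _ _ h => (Prod.ext_iff.mp h).1) ?_ ?_
  · intro ω ω' a b h
    have k1 := ((cond_pos_iff hp Z z ω).mp a).2
    have k2 := ((cond_pos_iff hp Z z ω').mp b).2
    exact Prod.ext h (k1.trans k2.symm)
  · intro ω ω' _ _ h
    exact (Prod.ext_iff.mp h).1

theorem CH_avg' [DecidableEq ζ] (hp : ∀ ω, 0 ≤ p ω) (X : Ω → S) (Z : Ω → ζ) :
    CH p X Z = ∑ z ∈ univ.image Z, law p Z z * CH (cond p Z z) X Z := by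
  rw [CH_eq_sum hp]
  refine Finset.sum_congr rfl fun z _ => ?_
  by_cases hz : law p Z z = 0
  · rw [hz, zero_mul, zero_mul]
  congr 1
  have hr := cond_nonneg hp Z z
  have hr1 := sum_cond p Z hz
  have e1 : H (cond p Z z) X = CH (cond p Z z) X (fun _ => ()) := by
    unfold CH
    rw [H_const hr1, sub_zero]
    refine H_congr hr ?_ ?_
    · intro ω ω' _ _ h
      exact (Prod.ext_iff.mp h).1
    · intro ω ω' _ _ h
      exact Prod.ext h rfl
  rw [e1]
  refine CH_congr hr (fun _ _ _ _ h => (Prod.ext_iff.mp h).1)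
    (fun _ _ _ _ h => (Prod.ext_iff.mp h).1) ?_ ?_
  · intro ω ω' a b _
    have k1 := ((cond_pos_iff hp Z z ω).mp a).2
    have k2 := ((cond_pos_iff hp Z z ω').mp b).2
    exact k1.trans k2.symm
  · intro ω ω' _ _ _
    rfl

end MZV

open MZV

theorem mzv_thm : MZVStmt := by
  classical
  intro m a R ha hR _ τ' hτ'
  obtain ⟨C, hC0, hC⟩ := gro_thm m
  have hl2 : 0 ≤ Real.log 2 := Real.log_nonneg (by norm_num)
  set K : ℝ := m * Real.log 2 + C + R + τ' with hK
  have hK0 : 0 < K := by positivity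
  set τ : ℝ := min (τ' / 4) (τ' * τ' / (4 * K)) with hτ
  have hτ0 : 0 < τ := lt_min (by positivity) (by positivity)
  have hτ1 : τ ≤ τ' / 4 := min_le_left _ _
  have hτ2 : τ * K ≤ τ' * τ' / 4 := by
    have h1 : τ ≤ τ' * τ' / (4 * K) := min_le_right _ _
    rw [le_div_iff₀ (by positivity)] at h1
    linarith
  refine ⟨τ, hτ0, 1, fun J hJ F hF => ?_⟩
  have hJ0 : (0 : ℝ) < J := by exact_mod_cast hJ
  have hJ1 : (1 : ℝ) ≤ J := by exact_mod_cast hJ
  obtain ⟨hT, hG⟩ := hF
  have hp := F.isLaw.nonneg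
  by_contra hcon
  push Not at hcon
  -- the values of positive probability
  have hlaw : ∀ z, 0 < law F.p F.Z z → IsLaw (cond F.p F.Z z) := fun z hz =>
    ⟨cond_nonneg hp F.Z z, sum_cond F.p F.Z hz.ne'⟩
  set E : F.ζ → ℝ := fun z => J * Real.log 2 -
    CH (cond F.p F.Z z) F.T (fun ω => (F.l ω, F.Z ω)) with hE
  set G : F.ζ → ℝ := fun z => CH (cond F.p F.Z z) (F.D J) F.Z -
    a * CH (cond F.p F.Z z) (F.X J) F.W with hGd
  have hE0 : ∀ z, 0 < law F.p F.Z z → 0 ≤ E z := by
    intro z hz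
    have := TRC.CH_lt (hlaw z hz) F.T (fun ω => (F.l ω, F.Z ω)) J F.tim
    simp only [hE]
    linarith
  have hGle : ∀ z, 0 < law F.p F.Z z → G z ≤ (m * Real.log 2 + C) * J := by
    intro z hz
    have h1 := (hC J (F.res F.Z z (hlaw z hz))).2.2 J
    have h2 : (F.res F.Z z (hlaw z hz)).V J = CH (cond F.p F.Z z) (F.D J) F.Z -
        CH (cond F.p F.Z z) (F.X J) F.W - m * (((J : ℝ) - J) * Real.log 2) := rfl
    rw [h2, sub_self, zero_mul, mul_zero, sub_zero] at h1
    have h3 : 0 ≤ CH (cond F.p F.Z z) (F.X J) F.W := CH_nonneg (hlaw z hz).nonneg _ _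
    simp only [hGd]
    nlinarith
  -- averages
  have s1 : ∑ z ∈ univ.image F.Z, law F.p F.Z z = 1 := by rw [sum_law, F.isLaw.sum_one]
  have s2 : ∑ z ∈ univ.image F.Z, law F.p F.Z z * E z ≤ τ * J := by
    have h1 := CH_avg hp F.T F.l F.Z
    unfold Fam.Tm at hT
    rw [h1] at hT
    have h2 : ∑ z ∈ univ.image F.Z, law F.p F.Z z * E z = J * Real.log 2 -
        ∑ z ∈ univ.image F.Z, law F.p F.Z z *
          CH (cond F.p F.Z z) F.T (fun ω => (F.l ω, F.Z ω)) := by
      simp only [hE, mul_sub, Finset.sum_sub_distrib, ← Finset.sum_mul, s1, one_mul]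
    rw [h2]
    linarith
  have s3 : (R - τ) * J ≤ ∑ z ∈ univ.image F.Z, law F.p F.Z z * G z := by
    have h1 := CH_avg' hp (F.D J) F.Z
    have h2 := CH_avg hp (F.X J) F.T F.Z
    refine hG.trans (le_of_eq ?_)
    unfold Fam.Ga
    have h3 : CH F.p (F.X J) F.W = CH F.p (F.X J) (fun ω => (F.T ω, F.Z ω)) := rfl
    rw [h3, h1, h2]
    simp only [hGd, mul_sub, Finset.sum_sub_distrib, Finset.mul_sum]
    congr 1
    refine Finset.sum_congr rfl fun z _ => ?_
    have h4 : CH (cond F.p F.Z z) (F.X J) F.W =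
      CH (cond F.p F.Z z) (F.X J) (fun ω => (F.T ω, F.Z ω)) := rfl
    rw [h4]
    ring
  -- each value
  have s4 : ∀ z ∈ univ.image F.Z, law F.p F.Z z * G z ≤
      law F.p F.Z z * ((R - τ') * J + K / τ' * E z) := by
    intro z _
    rcases (law_nonneg hp F.Z z).eq_or_lt with hz | hz
    · rw [← hz, zero_mul, zero_mul]
    refine mul_le_mul_of_nonneg_left ?_ hz.le
    have hKE : 0 ≤ K / τ' * E z := mul_nonneg (by positivity) (hE0 z hz)
    by_cases hgood : E z ≤ τ' * J
    · -- the deficit is small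
      by_contra hlt
      push Not at hlt
      refine hcon z (hlaw z hz) ⟨?_, ?_⟩ ⟨z, ?_⟩
      · change (J : ℝ) * Real.log 2 - τ' * J ≤
          CH (cond F.p F.Z z) F.T (fun ω => (F.l ω, F.Z ω))
        simp only [hE] at hgood
        linarith
      · have : (F.res F.Z z (hlaw z hz)).Ga a = G z := rfl
        rw [this]
        linarith
      · intro ω hω
        have h1 : 0 < cond F.p F.Z z ω :=
          lt_of_le_of_ne (cond_nonneg hp F.Z z ω) (Ne.symm hω)
        exact ((cond_pos_iff hp F.Z z ω).mp h1).2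
    · push Not at hgood
      have h1 := hGle z hz
      have h2 : K * J ≤ K / τ' * E z := by
        rw [div_mul_eq_mul_div, le_div_iff₀ hτ']
        nlinarith
      have h3 : (m * Real.log 2 + C) * J = K * J - (R + τ') * J := by rw [hK]; ring
      nlinarith
  have s5 := Finset.sum_le_sum s4
  have s6 : ∑ z ∈ univ.image F.Z, law F.p F.Z z * ((R - τ') * J + K / τ' * E z) =
      (R - τ') * J + K / τ' * ∑ z ∈ univ.image F.Z, law F.p F.Z z * E z := by
    rw [Finset.mul_sum]
    simp only [mul_add, Finset.sum_add_distrib, ← Finset.sum_mul, s1, one_mul]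
    congr 1
    refine Finset.sum_congr rfl fun z _ => ?_
    ring
  rw [s6] at s5
  have s7 : K / τ' * ∑ z ∈ univ.image F.Z, law F.p F.Z z * E z ≤ τ' / 4 * J := by
    have h1 : K / τ' * ∑ z ∈ univ.image F.Z, law F.p F.Z z * E z ≤ K / τ' * (τ * J) :=
      mul_le_mul_of_nonneg_left s2 (by positivity)
    refine h1.trans ?_
    have h2 : K / τ' * (τ * J) = τ * K / τ' * J := by ring
    rw [h2]
    refine mul_le_mul_of_nonneg_right ?_ hJ0.le
    rw [div_le_iff₀ hτ']
    linarith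
  nlinarith

end Pool.KA
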