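import Mathlib

/-!
# Irrational rotations: an upper bound for averages, uniform in the starting point

`rot_avg`: if `β` is irrational and `G ≥ 0` is continuous on `[0, 1]`, then for all large `K` and all
`x₀` the sum of `G (fract (x₀ + i β))`, `i < K`, is at most `K (3 ∫ G + ε)`.
-/

set_option autoImplicit false

namespace Pool.K2H13

open Finset MeasureTheory

/-- good rational approximations with large denominators -/
lemma dirichlet (β : ℝ) (hβ : Irrational β) (N : ℕ) :
    ∃ (P : ℤ) (Q : ℕ), N < Q ∧ IsCoprime P (Q : ℤ) ∧ |β * Q - P| ≤ 1 / Q := by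
  have hinf := Real.infinite_rat_abs_sub_lt_one_div_den_sq_of_irrational hβ
  by_contra hcon
  push Not at hcon
  apply hinf
  obtain ⟨B, hB⟩ := exists_nat_ge ((|β| + 1) * N)
  apply Set.Finite.subset (Set.Finite.image (fun z : ℤ × ℕ => ((z.1 : ℚ) / (z.2 : ℚ)))
    (((Set.finite_Icc (-(B : ℤ)) B).prod (Set.finite_Icc 0 N))))
  intro r hr
  simp only [Set.mem_ofPred_eq] at hr
  have hd : 0 < r.den := r.den_pos
  have hd' : (0 : ℝ) < r.den := by exact_mod_cast hd
  have hd1 : (1 : ℝ) ≤ r.den := by exact_mod_cast hd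
  have hrr : (r : ℝ) * r.den = r.num := by
    have := Rat.mul_den_eq_num r
    exact_mod_cast this
  have hN : r.den ≤ N := by
    by_contra h
    have h1 := hcon r.num r.den (not_le.1 h) (by
      rw [Int.isCoprime_iff_gcd_eq_one]
      have := r.reduced
      rw [Nat.Coprime] at this
      rw [Int.gcd]
      simpa using this)
    have h2 : |β * r.den - r.num| ≤ 1 / r.den := by
      have e : β * r.den - r.num = (β - r) * r.den := by rw [sub_mul, hrr]
      rw [e, abs_mul, abs_of_pos hd']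
      calc |β - r| * r.den ≤ 1 / (r.den : ℝ) ^ 2 * r.den :=
            mul_le_mul_of_nonneg_right hr.le hd'.le
        _ = 1 / r.den := by field_simp
    linarith
  refine ⟨(r.num, r.den), ⟨?_, ?_⟩, ?_⟩
  · have h1 : |(r : ℝ)| ≤ |β| + 1 := by
      have h2 : |β - r| ≤ 1 := by
        refine hr.le.trans ?_
        rw [div_le_one (by positivity)]
        exact one_le_pow₀ hd1
      have h3 := abs_sub_abs_le_abs_sub (r : ℝ) β
      rw [abs_sub_comm] at h3
      linarith
    have h2 : |(r.num : ℝ)| ≤ B := by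
      rw [← hrr, abs_mul, abs_of_pos hd']
      have hN' : (r.den : ℝ) ≤ N := by exact_mod_cast hN
      calc |(r : ℝ)| * r.den ≤ (|β| + 1) * N := by
            apply mul_le_mul h1 hN' hd'.le (by positivity)
        _ ≤ B := hB
    rw [abs_le] at h2
    exact ⟨by exact_mod_cast h2.1, by exact_mod_cast h2.2⟩
  · exact ⟨Nat.zero_le _, hN⟩
  · exact Rat.num_div_den r

/-- the cell of the point number `i` -/
noncomputable def cell (x β : ℝ) (Q i : ℕ) : ℕ := ⌊(Q : ℝ) * Int.fract (x + i * β)⌋₊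

/-- three points per cell -/
lemma fiber (x β : ℝ) (P : ℤ) (Q : ℕ) (hQ : 0 < Q) (hc : IsCoprime P (Q : ℤ))
    (h : |β * Q - P| ≤ 1 / Q) (j : ℕ) :
    ((range Q).filter fun i => cell x β Q i = j).card ≤ 3 := by
  have hQ' : (0 : ℝ) < Q := by exact_mod_cast hQ
  have h3 : ({-1, 0, 1} : Finset ℤ).card = 3 := by decide
  rw [← h3]
  apply Finset.card_le_card_of_injOn
    (fun i : ℕ => ⌊(Q : ℝ) * x⌋ + i * P - Q * ⌊x + i * β⌋ - j)
  · intro i hi
    rw [Finset.mem_coe, Finset.mem_filter, Finset.mem_range] at hi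
    obtain ⟨hiQ, hij⟩ := hi
    have hfr : 0 ≤ Int.fract (x + i * β) := Int.fract_nonneg _
    have h1 : (j : ℝ) ≤ Q * Int.fract (x + i * β) := by
      rw [← hij]; exact Nat.floor_le (by positivity)
    have h2 : (Q : ℝ) * Int.fract (x + i * β) < j + 1 := by
      rw [← hij]; exact Nat.lt_floor_add_one _
    have hf1 : 0 ≤ Int.fract ((Q : ℝ) * x) := Int.fract_nonneg _
    have hf2 : Int.fract ((Q : ℝ) * x) < 1 := Int.fract_lt_one _
    have he : |(i : ℝ) * (β * Q - P)| < 1 := by
      rw [abs_mul, Nat.abs_cast]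
      have hi' : (i : ℝ) < Q := by exact_mod_cast hiQ
      calc (i : ℝ) * |β * Q - P| ≤ i * (1 / Q) :=
            mul_le_mul_of_nonneg_left h (Nat.cast_nonneg _)
        _ < Q * (1 / Q) := by
            apply mul_lt_mul_of_pos_right hi'; positivity
        _ = 1 := by field_simp
    rw [abs_lt] at he
    have key : ((⌊(Q : ℝ) * x⌋ + i * P - Q * ⌊x + i * β⌋ - j : ℤ) : ℝ) =
        (Q * Int.fract (x + i * β) - j) - i * (β * Q - P) - Int.fract ((Q : ℝ) * x) := by
      push_cast
      have e1 := Int.self_sub_floor ((Q : ℝ) * x)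
      have e2 := Int.self_sub_floor (x + i * β)
      rw [← e1, ← e2]; ring
    have b1 : (-2 : ℝ) < ((⌊(Q : ℝ) * x⌋ + i * P - Q * ⌊x + i * β⌋ - j : ℤ) : ℝ) := by
      rw [key]; linarith
    have b2 : ((⌊(Q : ℝ) * x⌋ + i * P - Q * ⌊x + i * β⌋ - j : ℤ) : ℝ) < 2 := by
      rw [key]; linarith
    have c1 : (-2 : ℤ) < ⌊(Q : ℝ) * x⌋ + i * P - Q * ⌊x + i * β⌋ - j := by exact_mod_cast b1
    have c2 : ⌊(Q : ℝ) * x⌋ + i * P - Q * ⌊x + i * β⌋ - j < (2 : ℤ) := by exact_mod_cast b2
    simp only [Finset.coe_insert, Finset.coe_singleton, Set.mem_insert_iff,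
      Set.mem_singleton_iff]
    omega
  · intro a ha b hb hab
    rw [Finset.mem_coe, Finset.mem_filter, Finset.mem_range] at ha hb
    simp only at hab
    have h1 : (Q : ℤ) ∣ ((a : ℤ) - b) * P := by
      refine ⟨⌊x + a * β⌋ - ⌊x + b * β⌋, ?_⟩
      linear_combination hab
    have h2 : (Q : ℤ) ∣ (a : ℤ) - b := hc.symm.dvd_of_dvd_mul_right h1
    have h3 : ((a : ℤ) - b) = 0 := by
      apply Int.eq_zero_of_abs_lt_dvd h2
      rw [abs_lt]
      constructor <;> omega
    omega

/-- one period -/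
lemma period (G : ℝ → ℝ) (hG : ContinuousOn G (Set.Icc 0 1)) (h0 : ∀ t ∈ Set.Icc (0 : ℝ) 1, 0 ≤ G t)
    (x β : ℝ) (P : ℤ) (Q : ℕ) (hQ : 0 < Q) (hc : IsCoprime P (Q : ℤ))
    (h : |β * Q - P| ≤ 1 / Q) (ω : ℝ)
    (hω : ∀ s ∈ Set.Icc (0 : ℝ) 1, ∀ t ∈ Set.Icc (0 : ℝ) 1, |s - t| ≤ 1 / Q → G s ≤ G t + ω) :
    ∑ i ∈ range Q, G (Int.fract (x + i * β)) ≤ Q * (3 * (∫ t in (0 : ℝ)..1, G t) + ω) := by
  have hQ' : (0 : ℝ) < Q := by exact_mod_cast hQ
  obtain ⟨c, hcd⟩ : ∃ c : ℕ → ℝ, c = fun j : ℕ => ∫ t in ((j : ℝ) / Q)..(((j + 1 : ℕ) : ℝ) / Q), G t :=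
    ⟨_, rfl⟩
  have hsub : ∀ j < Q, Set.Icc ((j : ℝ) / Q) (((j + 1 : ℕ) : ℝ) / Q) ⊆ Set.Icc 0 1 := by
    intro j hj t ht
    refine ⟨le_trans (by positivity) ht.1, ht.2.trans ?_⟩
    rw [div_le_one hQ']
    exact_mod_cast hj
  have hle : ∀ j : ℕ, (j : ℝ) / Q ≤ ((j + 1 : ℕ) : ℝ) / Q := by
    intro j
    apply div_le_div_of_nonneg_right _ hQ'.le
    push_cast; linarith
  have hint : ∀ j < Q, IntervalIntegrable G volume ((j : ℝ) / Q) (((j + 1 : ℕ) : ℝ) / Q) := by
    intro j hj
    apply ContinuousOn.intervalIntegrable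
    rw [Set.uIcc_of_le (hle j)]
    exact hG.mono (hsub j hj)
  have hc0 : ∀ j < Q, 0 ≤ c j := by
    intro j hj
    rw [hcd]
    apply intervalIntegral.integral_nonneg (hle j)
    intro t ht
    exact h0 t (hsub j hj ht)
  have hsum : ∑ j ∈ range Q, c j = ∫ t in (0 : ℝ)..1, G t := by
    have h1 := intervalIntegral.sum_integral_adjacent_intervals (μ := volume) (f := G)
      (a := fun j : ℕ => (j : ℝ) / Q) (n := Q) (fun j hj => hint j hj)
    simp only [Nat.cast_zero, zero_div, div_self hQ'.ne'] at h1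
    rw [← h1, hcd]
  have hcell : ∀ i : ℕ, cell x β Q i < Q := by
    intro i
    unfold cell
    rw [Nat.floor_lt (mul_nonneg hQ'.le (Int.fract_nonneg _))]
    calc (Q : ℝ) * Int.fract (x + i * β) < Q * 1 :=
          mul_lt_mul_of_pos_left (Int.fract_lt_one _) hQ'
      _ = Q := mul_one _
  have hpt : ∀ i : ℕ, G (Int.fract (x + i * β)) ≤ Q * c (cell x β Q i) + ω := by
    intro i
    have hj := hcell i
    have hfr : 0 ≤ Int.fract (x + i * β) := Int.fract_nonneg _
    have h1 : ((cell x β Q i : ℕ) : ℝ) ≤ Q * Int.fract (x + i * β) :=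
      Nat.floor_le (by positivity)
    have h2 : (Q : ℝ) * Int.fract (x + i * β) < (cell x β Q i : ℕ) + 1 := Nat.lt_floor_add_one _
    have hm : ∀ t ∈ Set.Icc ((cell x β Q i : ℝ) / Q) (((cell x β Q i + 1 : ℕ) : ℝ) / Q),
        G (Int.fract (x + i * β)) - ω ≤ G t := by
      intro t ht
      have h3 := hω (Int.fract (x + i * β)) ⟨hfr, (Int.fract_lt_one _).le⟩ t (hsub _ hj ht) (by
        have h5 := ht.1
        have h6 := ht.2
        rw [div_le_iff₀ hQ'] at h5
        rw [le_div_iff₀ hQ'] at h6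
        push_cast at h6
        rw [abs_le]
        constructor
        · rw [neg_le_iff_add_nonneg, ← sub_nonneg]
          have : (0 : ℝ) ≤ (Int.fract (x + i * β) - t + 1 / Q) := by
            have e : Int.fract (x + i * β) - t + 1 / Q =
                (Q * Int.fract (x + i * β) - t * Q + 1) / Q := by field_simp
            rw [e]
            apply div_nonneg _ hQ'.le
            linarith
          linarith
        · have e : 1 / (Q : ℝ) - (Int.fract (x + i * β) - t) =
                (1 - (Q * Int.fract (x + i * β) - t * Q)) / Q := by field_simp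
          have : 0 ≤ 1 / (Q : ℝ) - (Int.fract (x + i * β) - t) := by
            rw [e]
            apply div_nonneg _ hQ'.le
            linarith
          linarith)
      linarith
    have h4 := intervalIntegral.integral_mono_on (hle (cell x β Q i))
      (intervalIntegrable_const (μ := volume) (c := G (Int.fract (x + i * β)) - ω))
      (hint _ hj) hm
    rw [intervalIntegral.integral_const, smul_eq_mul] at h4
    have e : ((cell x β Q i + 1 : ℕ) : ℝ) / Q - (cell x β Q i : ℝ) / Q = 1 / Q := by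
      push_cast; ring
    rw [e] at h4
    have h5 : c (cell x β Q i) = ∫ t in ((cell x β Q i : ℝ) / Q)..(((cell x β Q i + 1 : ℕ) : ℝ) / Q),
        G t := by rw [hcd]
    rw [← h5] at h4
    have h6 : G (Int.fract (x + i * β)) - ω ≤ Q * c (cell x β Q i) := by
      have := mul_le_mul_of_nonneg_left h4 hQ'.le
      calc G (Int.fract (x + i * β)) - ω = Q * (1 / Q * (G (Int.fract (x + i * β)) - ω)) := by
            field_simp
        _ ≤ _ := this
    linarith
  calc ∑ i ∈ range Q, G (Int.fract (x + i * β))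
      ≤ ∑ i ∈ range Q, (Q * c (cell x β Q i) + ω) := Finset.sum_le_sum fun i _ => hpt i
    _ = Q * ∑ i ∈ range Q, c (cell x β Q i) + Q * ω := by
        rw [Finset.sum_add_distrib, ← Finset.mul_sum]; simp
    _ ≤ Q * (3 * ∫ t in (0 : ℝ)..1, G t) + Q * ω := by
        have h1 : ∑ i ∈ range Q, c (cell x β Q i) ≤ 3 * ∫ t in (0 : ℝ)..1, G t := by
          rw [← hsum, Finset.mul_sum]
          have h2 : ∑ i ∈ range Q, c (cell x β Q i) =
              ∑ j ∈ range Q, ∑ i ∈ (range Q).filter (fun i => cell x β Q i = j), c j := by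
            rw [← Finset.sum_fiberwise_of_maps_to (s := range Q) (t := range Q)
              (g := fun i => cell x β Q i) (fun i _ => Finset.mem_range.2 (hcell i))]
            apply Finset.sum_congr rfl
            intro j _
            apply Finset.sum_congr rfl
            intro i hi
            rw [Finset.mem_filter] at hi
            rw [hi.2]
          rw [h2]
          apply Finset.sum_le_sum
          intro j hj
          rw [Finset.sum_const, nsmul_eq_mul]
          apply mul_le_mul_of_nonneg_right _ (hc0 j (Finset.mem_range.1 hj))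
          exact_mod_cast fiber x β P Q hQ hc h j
        have := mul_le_mul_of_nonneg_left h1 hQ'.le
        linarith
    _ = _ := by ring

/-- averages along an irrational rotation, uniform in the starting point -/
theorem rot_avg (β : ℝ) (hβ : Irrational β) (G : ℝ → ℝ) (hG : ContinuousOn G (Set.Icc 0 1))
    (h0 : ∀ t ∈ Set.Icc (0 : ℝ) 1, 0 ≤ G t) (ε : ℝ) (hε : 0 < ε) :
    ∃ K₀ : ℕ, ∀ K ≥ K₀, ∀ x : ℝ, ∑ i ∈ range K, G (Int.fract (x + i * β)) ≤
      K * (3 * (∫ t in (0 : ℝ)..1, G t) + ε) := by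
  have huc := isCompact_Icc.uniformContinuousOn_of_continuous hG
  rw [Metric.uniformContinuousOn_iff] at huc
  obtain ⟨δ, hδ, hd⟩ := huc (ε / 2) (by linarith)
  obtain ⟨N, hN⟩ := exists_nat_gt (1 / δ)
  obtain ⟨P, Q, hQN, hc, h⟩ := dirichlet β hβ N
  have hQ : 0 < Q := by omega
  have hQ' : (0 : ℝ) < Q := by exact_mod_cast hQ
  have hQδ : 1 / (Q : ℝ) < δ := by
    have h1 : (N : ℝ) < Q := by exact_mod_cast hQN
    rw [div_lt_iff₀ hδ] at hN
    rw [div_lt_iff₀ hQ']
    nlinarith
  have hω : ∀ s ∈ Set.Icc (0 : ℝ) 1, ∀ t ∈ Set.Icc (0 : ℝ) 1, |s - t| ≤ 1 / Q →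
      G s ≤ G t + ε / 2 := by
    intro s hs t ht hst
    have h1 := hd s hs t ht (by rw [Real.dist_eq]; linarith)
    rw [Real.dist_eq, abs_lt] at h1
    linarith
  obtain ⟨I, hI⟩ : ∃ I : ℝ, I = ∫ t in (0 : ℝ)..1, G t := ⟨_, rfl⟩
  have hI0 : 0 ≤ I := by
    rw [hI]
    exact intervalIntegral.integral_nonneg zero_le_one h0
  rw [← hI]
  obtain ⟨K₀, hK₀⟩ := exists_nat_ge (Q * (3 * I + ε / 2) / (ε / 2))
  refine ⟨K₀, fun K hK x => ?_⟩
  have hper : ∀ y : ℝ, ∑ i ∈ range Q, G (Int.fract (y + i * β)) ≤ Q * (3 * I + ε / 2) := by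
    intro y
    rw [hI]
    exact period G hG h0 y β P Q hQ hc h (ε / 2) hω
  have hG0 : ∀ y : ℝ, 0 ≤ G (Int.fract y) := fun y =>
    h0 _ ⟨Int.fract_nonneg _, (Int.fract_lt_one _).le⟩
  have hblocks : ∀ a : ℕ, ∑ i ∈ range (a * Q), G (Int.fract (x + i * β)) ≤
      a * (Q * (3 * I + ε / 2)) := by
    intro a
    induction a with
    | zero => simp
    | succ a ih =>
      rw [Nat.succ_mul, Finset.sum_range_add]
      have h1 := hper (x + ((a * Q : ℕ) : ℝ) * β)
      have h2 : ∑ i ∈ range Q, G (Int.fract (x + ((a * Q + i : ℕ) : ℝ) * β)) =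
          ∑ i ∈ range Q, G (Int.fract (x + ((a * Q : ℕ) : ℝ) * β + i * β)) := by
        apply Finset.sum_congr rfl
        intro i _
        congr 2
        push_cast; ring
      rw [h2]; push_cast at h1 ⊢; linarith
  have h1 : ∑ i ∈ range K, G (Int.fract (x + i * β)) ≤
      ∑ i ∈ range ((K / Q + 1) * Q), G (Int.fract (x + i * β)) := by
    apply Finset.sum_le_sum_of_subset_of_nonneg
    · intro i hi
      rw [Finset.mem_range] at hi ⊢
      have := Nat.lt_div_mul_add (a := K) hQ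
      rw [add_mul, one_mul]
      omega
    · intro i _ _
      exact hG0 _
  refine h1.trans ((hblocks _).trans ?_)
  have h2 : ((K / Q : ℕ) : ℝ) * Q ≤ K := by exact_mod_cast Nat.div_mul_le_self K Q
  have h3 : Q * (3 * I + ε / 2) ≤ K * (ε / 2) := by
    have h4 : (K₀ : ℝ) ≤ K := by exact_mod_cast hK
    have h5 := hK₀.trans h4
    rwa [div_le_iff₀ (by linarith)] at h5
  have h6 : 0 ≤ 3 * I + ε / 2 := by linarith
  push_cast
  nlinarith [mul_le_mul_of_nonneg_right h2 h6]

end Pool.K2H13
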