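import Mathlib
import Pool.Agent.H24.FD.Defs
import Pool.Agent.H13.K2.Rot

/-!
# MP_1f2761: averages along the points `yy q J` (row WEY)
-/

set_option autoImplicit false

namespace Pool.K2H13

open Finset MeasureTheory Pool.Agent.H24.FD

lemma irr_logb (q : ℕ) (hq : 1 < q) (hodd : Odd q) : Irrational (Real.logb q 2) := by
  rintro ⟨r, hr⟩
  have hq0 : (0 : ℝ) < q := by exact_mod_cast (by omega : 0 < q)
  have hq1 : (1 : ℝ) < q := by exact_mod_cast hq
  have hpos : 0 < Real.logb q 2 := Real.logb_pos hq1 (by norm_num)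
  rw [← hr] at hpos
  have hr0 : 0 < r := by exact_mod_cast hpos
  have hnum : 0 < r.num := Rat.num_pos.2 hr0
  have hden : 0 < r.den := r.den_pos
  obtain ⟨m, hm⟩ := Int.eq_ofNat_of_zero_le hnum.le
  have h1 : (2 : ℝ) ^ r.den = (q : ℝ) ^ m := by
    have h2 : (q : ℝ) ^ (Real.logb q 2) = 2 := Real.rpow_logb hq0 (by linarith) (by norm_num)
    rw [← hr] at h2
    have h3 : (r : ℝ) * r.den = (m : ℝ) := by
      have := Rat.mul_den_eq_num r
      rw [hm] at this
      exact_mod_cast this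
    calc (2 : ℝ) ^ r.den = ((q : ℝ) ^ (r : ℝ)) ^ r.den := by rw [h2]
      _ = (q : ℝ) ^ ((r : ℝ) * r.den) := by rw [Real.rpow_mul hq0.le, Real.rpow_natCast]
      _ = (q : ℝ) ^ m := by rw [h3, Real.rpow_natCast]
  have h4 : 2 ^ r.den = q ^ m := by exact_mod_cast h1
  have h5 : Odd (q ^ m) := hodd.pow
  rw [← h4] at h5
  have h6 : Even (2 ^ r.den) := (by decide : Even 2).pow_of_ne_zero hden.ne'
  exact (Nat.not_even_iff_odd.2 h5) h6

lemma yy_eq (q : ℕ) (hq : 1 < q) (J : ℕ) :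
    yy q J = (q : ℝ) ^ (-Int.fract (-((J : ℝ) * Real.logb q 2))) := by
  have hq0 : (0 : ℝ) < q := by exact_mod_cast (by omega : 0 < q)
  have hq1 : (1 : ℝ) < q := by exact_mod_cast hq
  unfold yy II
  have h2 : (q : ℝ) ^ (Real.logb q 2) = 2 := Real.rpow_logb hq0 (by linarith) (by norm_num)
  have hlog : Real.logb q (((2 ^ J : ℕ)) : ℝ) = J * Real.logb q 2 := by
    push_cast
    rw [Real.logb_pow]
  have hpos : 0 ≤ (J : ℝ) * Real.logb q 2 :=
    mul_nonneg (Nat.cast_nonneg _) (Real.logb_pos hq1 (by norm_num)).le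
  have hc : ((Nat.clog q (2 ^ J) : ℕ) : ℝ) = ⌈(J : ℝ) * Real.logb q 2⌉ := by
    rw [← Real.natCeil_logb_natCast, hlog]
    have := Int.natCast_ceil_eq_ceil hpos
    exact_mod_cast this
  have e1 : -Int.fract (-((J : ℝ) * Real.logb q 2)) =
      (J : ℝ) * Real.logb q 2 - ((Nat.clog q (2 ^ J) : ℕ) : ℝ) := by
    rw [hc, ← Int.self_sub_floor, Int.floor_neg]
    push_cast; ring
  rw [e1, Real.rpow_sub hq0, Real.rpow_natCast, mul_comm, Real.rpow_mul hq0.le, h2,
    Real.rpow_natCast]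

lemma subst_bound (q : ℕ) (hq : q = 3 ∨ q = 5) (F : ℝ → ℝ) (hF : ContinuousOn F (Set.Icc 0 1))
    (h0 : ∀ y ∈ Set.Icc (0 : ℝ) 1, 0 ≤ F y) :
    3 * (∫ t in (0 : ℝ)..1, F ((q : ℝ) ^ (-t))) ≤ 10 * ∫ y in (0 : ℝ)..1, F y := by
  have hq1 : 1 < q := by rcases hq with h | h <;> omega
  have hq0 : (0 : ℝ) < q := by exact_mod_cast (by omega : 0 < q)
  have hq1' : (1 : ℝ) < q := by exact_mod_cast hq1
  have hl : 0 < Real.log q := Real.log_pos hq1'
  have hcont : Continuous fun t : ℝ => (q : ℝ) ^ (-t) := by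
    apply Continuous.rpow continuous_const continuous_neg
    intro x; left; exact hq0.ne'
  have hmem : ∀ t ∈ Set.Icc (0 : ℝ) 1, (q : ℝ) ^ (-t) ∈ Set.Icc (1 / (q : ℝ)) 1 := by
    intro t ht
    constructor
    · have : (1 / (q : ℝ)) = (q : ℝ) ^ (-1 : ℝ) := by
        rw [Real.rpow_neg_one]; simp
      rw [this]
      exact Real.rpow_le_rpow_of_exponent_le hq1'.le (by linarith [ht.2])
    · exact Real.rpow_le_one_of_one_le_of_nonpos hq1'.le (by linarith [ht.1])
  have hmem' : ∀ t ∈ Set.Icc (0 : ℝ) 1, (q : ℝ) ^ (-t) ∈ Set.Icc (0 : ℝ) 1 := by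
    intro t ht
    exact ⟨le_trans (by positivity) (hmem t ht).1, (hmem t ht).2⟩
  have hder : ∀ t : ℝ, HasDerivAt (fun t : ℝ => (q : ℝ) ^ (-t)) (-(Real.log q * (q : ℝ) ^ (-t))) t := by
    intro t
    have h1 := (hasDerivAt_neg t).const_rpow (a := (q : ℝ)) hq0
    convert h1 using 1
    ring
  have hI : (Set.uIcc (0 : ℝ) 1) = Set.Icc 0 1 := Set.uIcc_of_le zero_le_one
  have hsub := intervalIntegral.integral_comp_mul_deriv'' (a := (0 : ℝ)) (b := 1)
    (f := fun t : ℝ => (q : ℝ) ^ (-t)) (f' := fun t => -(Real.log q * (q : ℝ) ^ (-t))) (g := F)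
    hcont.continuousOn (fun x _ => (hder x).hasDerivWithinAt)
    ((continuous_const.mul hcont).neg.continuousOn)
    (hF.mono (by
      rintro _ ⟨t, ht, rfl⟩
      rw [hI] at ht
      exact hmem' t ht))
  have e0 : (q : ℝ) ^ (-(0 : ℝ)) = 1 := by simp
  have e1 : (q : ℝ) ^ (-(1 : ℝ)) = 1 / q := by rw [Real.rpow_neg_one]; simp
  simp only [Function.comp_apply, e0, e1] at hsub
  have hq' : 1 / (q : ℝ) ≤ 1 := by
    rw [div_le_one hq0]; exact hq1'.le
  have hFG : ContinuousOn (fun t : ℝ => F ((q : ℝ) ^ (-t))) (Set.Icc 0 1) :=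
    hF.comp hcont.continuousOn (fun t ht => hmem' t ht)
  have i1 : IntervalIntegrable (fun t : ℝ => F ((q : ℝ) ^ (-t))) volume 0 1 := by
    apply ContinuousOn.intervalIntegrable; rw [hI]; exact hFG
  have i2 : IntervalIntegrable (fun t : ℝ => F ((q : ℝ) ^ (-t)) * (-(Real.log q * (q : ℝ) ^ (-t))))
      volume 0 1 := by
    apply ContinuousOn.intervalIntegrable; rw [hI]
    apply hFG.mul
    exact (continuous_const.mul hcont).neg.continuousOn
  have h1 : (Real.log q / q) * (∫ t in (0 : ℝ)..1, F ((q : ℝ) ^ (-t))) ≤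
      - ∫ t in (0 : ℝ)..1, F ((q : ℝ) ^ (-t)) * (-(Real.log q * (q : ℝ) ^ (-t))) := by
    rw [← intervalIntegral.integral_const_mul, ← intervalIntegral.integral_neg]
    apply intervalIntegral.integral_mono_on zero_le_one (i1.const_mul _) i2.neg
    intro t ht
    have h2 := h0 _ (hmem' t ht)
    have h3 := (hmem t ht).1
    have h4 : Real.log q / q ≤ Real.log q * (q : ℝ) ^ (-t) := by
      rw [div_eq_mul_one_div]
      exact mul_le_mul_of_nonneg_left h3 hl.le
    have := mul_le_mul_of_nonneg_right h4 h2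
    simp only [Pi.neg_apply]
    linarith
  rw [hsub, intervalIntegral.integral_symm (1 / (q : ℝ)) 1, neg_neg] at h1
  have h2 : ∫ u in (1 / (q : ℝ))..1, F u ≤ ∫ u in (0 : ℝ)..1, F u := by
    have hq'' : (0 : ℝ) ≤ 1 / q := by positivity
    have a1 : IntervalIntegrable F volume 0 (1 / (q : ℝ)) := by
      apply ContinuousOn.intervalIntegrable
      rw [Set.uIcc_of_le hq'']
      exact hF.mono (Set.Icc_subset_Icc le_rfl hq')
    have a2 : IntervalIntegrable F volume (1 / (q : ℝ)) 1 := by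
      apply ContinuousOn.intervalIntegrable
      rw [Set.uIcc_of_le hq']
      exact hF.mono (Set.Icc_subset_Icc hq'' le_rfl)
    rw [← intervalIntegral.integral_add_adjacent_intervals a1 a2]
    have : 0 ≤ ∫ u in (0 : ℝ)..(1 / q), F u := by
      apply intervalIntegral.integral_nonneg hq''
      intro u hu
      exact h0 u ⟨hu.1, hu.2.trans hq'⟩
    linarith
  have hFn : 0 ≤ ∫ u in (0 : ℝ)..1, F u := intervalIntegral.integral_nonneg zero_le_one h0
  have hGn : 0 ≤ ∫ t in (0 : ℝ)..1, F ((q : ℝ) ^ (-t)) :=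
    intervalIntegral.integral_nonneg zero_le_one fun t ht => h0 _ (hmem' t ht)
  have hlow : 3 / 10 ≤ Real.log q / q := by
    have l2 := Real.log_two_gt_d9
    rcases hq with h | h
    · subst h
      have h3 : 4 * Real.log 2 ≤ 3 * Real.log 3 := by
        have : Real.log ((2 : ℝ) ^ 4) ≤ Real.log ((3 : ℝ) ^ 3) :=
          Real.log_le_log (by norm_num) (by norm_num)
        rw [Real.log_pow, Real.log_pow] at this
        exact_mod_cast this
      rw [le_div_iff₀ hq0]
      push_cast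
      linarith
    · subst h
      have h3 : 9 * Real.log 2 ≤ 4 * Real.log 5 := by
        have : Real.log ((2 : ℝ) ^ 9) ≤ Real.log ((5 : ℝ) ^ 4) :=
          Real.log_le_log (by norm_num) (by norm_num)
        rw [Real.log_pow, Real.log_pow] at this
        exact_mod_cast this
      rw [le_div_iff₀ hq0]
      push_cast
      linarith
  have := mul_le_mul_of_nonneg_right hlow hGn
  linarith

/-- row WEY: averages along the points `yy q (J + i W)`, uniform in `J` -/
theorem weyl (q : ℕ) (hq : q = 3 ∨ q = 5) (W : ℕ) (hW : 0 < W) (F : ℝ → ℝ)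
    (hF : ContinuousOn F (Set.Icc 0 1)) (h0 : ∀ y ∈ Set.Icc (0 : ℝ) 1, 0 ≤ F y) (ε : ℝ)
    (hε : 0 < ε) :
    ∃ K₀ : ℕ, ∀ K ≥ K₀, ∀ J : ℕ, ∑ i ∈ range K, F (yy q (J + i * W)) ≤
      K * (10 * (∫ y in (0 : ℝ)..1, F y) + ε) := by
  have hq1 : 1 < q := by rcases hq with h | h <;> omega
  have hodd : Odd q := by rcases hq with h | h <;> subst h <;> decide
  have hq0 : (0 : ℝ) < q := by exact_mod_cast (by omega : 0 < q)
  have hq1' : (1 : ℝ) < q := by exact_mod_cast hq1
  have hirr : Irrational (-((W : ℝ) * Real.logb q 2)) := by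
    apply Irrational.neg
    exact (irr_logb q hq1 hodd).natCast_mul hW.ne'
  have hcont : Continuous fun t : ℝ => (q : ℝ) ^ (-t) := by
    apply Continuous.rpow continuous_const continuous_neg
    intro x; left; exact hq0.ne'
  have hmem' : ∀ t ∈ Set.Icc (0 : ℝ) 1, (q : ℝ) ^ (-t) ∈ Set.Icc (0 : ℝ) 1 := by
    intro t ht
    exact ⟨Real.rpow_nonneg hq0.le _,
      Real.rpow_le_one_of_one_le_of_nonpos hq1'.le (by linarith [ht.1])⟩
  obtain ⟨K₀, hK₀⟩ := rot_avg (-((W : ℝ) * Real.logb q 2)) hirr (fun t => F ((q : ℝ) ^ (-t)))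
    (hF.comp hcont.continuousOn (fun t ht => hmem' t ht)) (fun t ht => h0 _ (hmem' t ht)) ε hε
  refine ⟨K₀, fun K hK J => ?_⟩
  have h1 := hK₀ K hK (-((J : ℝ) * Real.logb q 2))
  have h2 := subst_bound q hq F hF h0
  have h3 : ∑ i ∈ range K, F (yy q (J + i * W)) = ∑ i ∈ range K, F ((q : ℝ) ^
      (-Int.fract (-((J : ℝ) * Real.logb q 2) + i * -((W : ℝ) * Real.logb q 2)))) := by
    apply Finset.sum_congr rfl
    intro i _
    rw [yy_eq q hq1]
    congr 4
    push_cast; ring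
  rw [h3]
  refine h1.trans ?_
  apply mul_le_mul_of_nonneg_left _ (Nat.cast_nonneg _)
  linarith

end Pool.K2H13
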